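import Pool.Agent.Helper9.UNI.Sheet

/-! Project UNI (MP_9a3c31_nt), row KLOCu (edit of `Helper45.LV.KLOC`). -/

set_option autoImplicit false

open Filter Topology NumberField

namespace Pool.Agent.Helper89.UNI

open Pool.Agent.Helper42.LS Pool.Agent.Helper42.LK Pool.Agent.Helper54.LS
open Pool.Agent.Helper92.LV Pool.Agent.Helper9.UNI

theorem KLOCu (hKLB2 : ST_KLB2) (hKLS2u : ST_KLS2u) (hKFP : ST_KFP) (hSIX : ST_SIX) :
    ST_KLOCu := by
  intro K _ _ v
  obtain ⟨V, hV, hq⟩ := hKFP K v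
  have hfun : V.nr = fun x : K => v x := funext hV
  have hlq : lq v = Real.log V.q := by rw [lq, hq]
  have hl6 : -Real.log (V.nr 6) = l6 v := by rw [l6, hV]
  intro A B hD x y hg
  by_cases h6 : v 2 = 1 ∧ v 3 = 1
  · have hε0 : l6 v = 0 := ((hSIX K).2.1 v).2.1 h6.1 h6.2
    have h2 : V.ord 2 = 0 := (V.nr_eq_one_iff (by norm_num)).1 (by rw [hV]; exact h6.1)
    have h3 : V.ord 3 = 0 := (V.nr_eq_one_iff (by norm_num)).1 (by rw [hV]; exact h6.2)
    obtain ⟨t, n, U, f, h0, hn, hint, hle, hmul, hU1, hU2, hQ, hU3⟩ :=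
      hKLB2 K V h2 h3 A B hD x y hg
    rw [hfun] at h0 hle hmul hU3
    simp only [hV] at hU1 hU2 hU3
    rw [hε0]
    by_cases hdl : dl (fun x : K => v x) A B = 0
    · refine ⟨0, 0, 1, U, f, le_rfl, by rw [hdl]; simp, le_rfl, ⟨0, by simp⟩,
        fun h => absurd rfl h, fun _ => ⟨rfl, rfl⟩, fun _ _ h => absurd rfl h, ?_, hU2, hQ, ?_⟩
      · intro k hk
        have := hU1 k hk
        rw [this]
        simp
      · intro k hk
        have := hU3 k hk
        rw [hdl] at this
        rw [this]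
        simp
    · refine ⟨dl (fun x : K => v x) A B, t, n, U, f, h0, by simp, hn, hint,
        fun h => by rw [hlq]; exact hle h, fun h => absurd h hdl, fun _ _ h => hmul h, ?_, hU2,
        hQ, ?_⟩
      · intro k hk
        have := hU1 k hk
        rw [this]
        simp
      · intro k hk
        have := hU3 k hk
        rw [this]
        simp
  · have h6' : ¬ (V.ord 2 = 0 ∧ V.ord 3 = 0) := by
      rintro ⟨h2, h3⟩
      apply h6
      constructor
      · rw [← hV]
        exact (V.nr_eq_one_iff (by norm_num)).2 h2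
      · rw [← hV]
        exact (V.nr_eq_one_iff (by norm_num)).2 h3
    obtain ⟨w, t, n, U, f, h0, hw, hn, hint, hle, hU1, hU2, hQ, hU3⟩ :=
      hKLS2u K V h6' A B hD x y hg
    rw [hl6] at hw hU1 hU3
    rw [hfun] at hw
    simp only [hV] at hU1 hU2 hU3
    by_cases hw0 : w = 0
    · refine ⟨0, 0, 1, U, f, le_rfl, by rw [← hw0]; exact hw, le_rfl, ⟨0, by simp⟩,
        fun h => absurd rfl h, fun _ => ⟨rfl, rfl⟩, fun h2 h3 => absurd ⟨h2, h3⟩ h6, hU1, hU2,
        hQ, ?_⟩
      intro k hk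
      have := hU3 k hk
      rw [hw0] at this
      simpa using this
    · exact ⟨w, t, n, U, f, h0, hw, hn, hint, fun h => by rw [hlq]; exact hle h,
        fun h => absurd h hw0, fun h2 h3 => absurd ⟨h2, h3⟩ h6, hU1, hU2, hQ, hU3⟩

end Pool.Agent.Helper89.UNI
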