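import Pool.Agent.Helper9.UNI.Sheet

/-! Project UNI (MP_9a3c31_nt), row SIX. -/

set_option autoImplicit false

open Filter Topology NumberField

namespace Pool.Agent.Helper89.UNI

open Pool.Agent.Helper42.LS Pool.Agent.Helper42.LK Pool.Agent.Helper9.UNI

theorem six_mul {K : Type} [Field K] [NumberField K] (v : FinitePlace K) :
    v (6 : K) = v 2 * v 3 := by
  rw [← map_mul]
  norm_num

theorem six_le {K : Type} [Field K] [NumberField K] (hFP : ST_KFP) (v : FinitePlace K) (n : ℕ)
    [n.AtLeastTwo] : v (OfNat.ofNat n : K) ≤ 1 := by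
  obtain ⟨V, hV, _⟩ := hFP K v
  rw [← hV]
  exact V.nr_ofNat n

theorem six_pos {K : Type} [Field K] [NumberField K] (hFP : ST_KFP) (v : FinitePlace K) {a : K}
    (ha : a ≠ 0) : 0 < v a := by
  obtain ⟨V, hV, _⟩ := hFP K v
  rw [← hV]
  exact V.nr_pos ha

theorem six_l6_nonneg {K : Type} [Field K] [NumberField K] (hFP : ST_KFP) (v : FinitePlace K) :
    0 ≤ l6 v := by
  unfold l6
  have h1 := six_le hFP v 6
  have h2 := six_pos hFP v (a := (6 : K)) (by norm_num)
  have := Real.log_nonpos h2.le h1
  linarith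

theorem six_bad {K : Type} [Field K] [NumberField K] (hFP : ST_KFP) (v : FinitePlace K)
    (h : ¬ (v 2 = 1 ∧ v 3 = 1)) : lq v ≤ l6 v := by
  have h2 := six_le hFP v 2
  have h3 := six_le hFP v 3
  have h2p := six_pos hFP v (a := (2 : K)) (by norm_num)
  have h3p := six_pos hFP v (a := (3 : K)) (by norm_num)
  have h6 : v (6 : K) < 1 := by
    rw [six_mul]
    by_contra hge
    push Not at hge
    apply h
    constructor
    · nlinarith
    · nlinarith
  obtain ⟨V, hV, hq⟩ := hFP K v
  have h6n : (6 : K) ≠ 0 := by norm_num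
  rw [← hV, V.nr_lt_one_iff h6n] at h6
  unfold lq l6
  rw [← hq, ← hV, V.log_nr h6n]
  have h7 : (1 : ℝ) ≤ (V.ord 6 : ℝ) := by exact_mod_cast h6
  have h8 := V.log_q_pos
  nlinarith

theorem six_lq {K : Type} [Field K] [NumberField K] (v : FinitePlace K) :
    Real.log 2 ≤ lq v := by
  unfold lq
  apply Real.log_le_log (by norm_num)
  have := NumberField.HeightOneSpectrum.one_lt_absNorm v.maximalIdeal
  exact_mod_cast this

theorem six_sum {K : Type} [Field K] [NumberField K] (hFP : ST_KFP)
    (T : Finset (FinitePlace K)) : ∑ v ∈ T, l6 v ≤ Module.finrank ℚ K * Real.log 6 := by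
  classical
  have h6n : (6 : K) ≠ 0 := by norm_num
  have hfin := FinitePlace.hasFiniteMulSupport (K := K) h6n
  have hpf := prod_abs_eq_one (K := K) h6n
  have hsub : Function.mulSupport (fun w : FinitePlace K => w (6 : K)) ⊆
      ↑(hfin.toFinset ∪ T) := by
    intro v hv
    rw [Finset.coe_union]
    left
    exact (Set.Finite.mem_toFinset hfin).2 hv
  rw [finprod_eq_prod_of_mulSupport_subset _ hsub] at hpf
  have hw : ∀ w : InfinitePlace K, w (6 : K) = 6 := by
    intro w
    have := InfinitePlace.norm_embedding_eq w (6 : K)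
    rw [← this, map_ofNat]
    simp
  have hlog := congrArg Real.log hpf
  rw [Real.log_one, Real.log_mul, Real.log_prod, Real.log_prod] at hlog
  · have e1 : ∑ w : InfinitePlace K, Real.log (w (6 : K) ^ w.mult) =
        Module.finrank ℚ K * Real.log 6 := by
      rw [← InfinitePlace.sum_mult_eq (K := K), Nat.cast_sum, Finset.sum_mul]
      refine Finset.sum_congr rfl fun w _ => ?_
      rw [hw, Real.log_pow]
    rw [e1] at hlog
    have e2 : ∑ v ∈ hfin.toFinset ∪ T, l6 v = Module.finrank ℚ K * Real.log 6 := by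
      unfold l6
      rw [Finset.sum_neg_distrib]
      linarith
    rw [← e2]
    exact Finset.sum_le_sum_of_subset_of_nonneg Finset.subset_union_right
      (fun v _ _ => six_l6_nonneg hFP v)
  · intro v _
    exact (six_pos hFP v h6n).ne'
  · intro w _
    rw [hw]
    positivity
  · refine (Finset.prod_pos fun w _ => ?_).ne'
    rw [hw]
    positivity
  · exact (Finset.prod_pos fun v _ => six_pos hFP v h6n).ne'

theorem SIX (hKFP : ST_KFP) : ST_SIX := by
  intro K _ _
  refine ⟨?_, ?_, six_lq, six_sum hKFP, ?_, ?_⟩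
  · have h2 := FinitePlace.hasFiniteMulSupport (K := K) (x := (2 : K)) (by norm_num)
    have h3 := FinitePlace.hasFiniteMulSupport (K := K) (x := (3 : K)) (by norm_num)
    refine (Set.Finite.union h2 h3).subset ?_
    intro v hv
    by_contra hn
    apply hv
    rw [Set.mem_union, not_or] at hn
    constructor
    · by_contra h
      exact hn.1 h
    · by_contra h
      exact hn.2 h
  · intro v
    refine ⟨six_l6_nonneg hKFP v, ?_, six_bad hKFP v⟩
    intro h2 h3
    unfold l6
    rw [six_mul, h2, h3]
    simp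
  · intro T hT
    have h1 : ∑ v ∈ T, lq v ≤ Module.finrank ℚ K * Real.log 6 :=
      (Finset.sum_le_sum fun v hv => six_bad hKFP v (hT v hv)).trans (six_sum hKFP T)
    refine ⟨h1, le_trans ?_ h1⟩
    have h2 := Finset.card_nsmul_le_sum T (fun v => lq v) (Real.log 2) (fun v _ => six_lq v)
    rw [nsmul_eq_mul] at h2
    exact h2
  · rw [← InfinitePlace.sum_mult_eq (K := K), ← Finset.card_univ, Finset.card_eq_sum_ones]
    exact Finset.sum_le_sum fun w _ => InfinitePlace.mult_pos (w := w)

end Pool.Agent.Helper89.UNI
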